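import Pool.Agent.Helper6.LP.St

/-!
# Project LP, module FNQ: a positive proportion of the `n` is good, for every `c`

Adapted from `Helper18/LM/M_FNB.lean`.
-/

set_option autoImplicit false

noncomputable section

namespace Pool.Agent.Helper55.LP

open Finset
open Pool.Agent.Helper6.LP

private theorem le_of_dvd_primorial {p l : ℕ} (hl : l.Prime) (h : l ∣ primorial p) : l ≤ p := by
  unfold primorial at h
  rw [hl.prime.dvd_finsetProd_iff] at h
  obtain ⟨q, hq, hd⟩ := h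
  simp only [Finset.mem_filter, Finset.mem_range] at hq
  have := (Nat.prime_dvd_prime_iff_eq hl hq.2).1 hd
  omega

private theorem pow_bd {δ : ℝ} (hδ : 0 < δ) {M I : ℕ} (h : 4 ≤ (M : ℝ) ^ (δ / 2))
    (hI : (M : ℝ) ^ δ < 2 ^ (I + 1)) :
    2 ≤ 2 ^ I - 1 ∧ δ / 2 * Real.log M ≤ Real.log ((2 ^ I - 1 : ℕ) : ℝ) := by
  have hM : (0 : ℝ) < M := by
    rcases Nat.eq_zero_or_pos M with h0 | h0
    · subst h0
      rw [Nat.cast_zero, Real.zero_rpow (by positivity)] at h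
      norm_num at h
    · exact_mod_cast h0
  have h1 : (M : ℝ) ^ δ = (M : ℝ) ^ (δ / 2) * (M : ℝ) ^ (δ / 2) := by
    rw [← Real.rpow_add hM]
    congr 1
    ring
  have h2 : (2 : ℝ) ^ (I + 1) = 2 * 2 ^ I := by rw [pow_succ]; ring
  have h3 : 2 * (M : ℝ) ^ (δ / 2) ≤ 2 ^ I := by nlinarith
  have h4 : (8 : ℝ) ≤ 2 ^ I := by linarith
  have h5 : 8 ≤ 2 ^ I := by exact_mod_cast h4
  have h6 : (((2 ^ I - 1 : ℕ)) : ℝ) = 2 ^ I - 1 := by
    rw [Nat.cast_sub (by omega)]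
    push_cast
    ring
  refine ⟨by omega, ?_⟩
  rw [← Real.log_rpow hM, h6]
  exact Real.log_le_log (by linarith) (by linarith)

private theorem large {δ c η P : ℝ} (M₀ : ℝ) (hδ : 0 < δ) (hc : 0 < c) :
    ∀ᶠ x : ℝ in Filter.atTop, 2 * P ≤ x ∧ M₀ ≤ x ∧ 4 ≤ x ^ (δ / 2) ∧ 2 * P ≤ c / 2 * Real.log x ^ 2 ∧
      c * Real.log x ^ 2 ≤ x / 2 ∧ 4 * P / η ≤ x ∧ 1 ≤ x ∧ 1 ≤ Real.log x := by
  have e3 : ∀ᶠ x : ℝ in Filter.atTop, 4 ≤ x ^ (δ / 2) :=
    (tendsto_rpow_atTop (by positivity)).eventually_ge_atTop 4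
  have e4 : ∀ᶠ x : ℝ in Filter.atTop, 4 * P / c ≤ Real.log x :=
    Real.tendsto_log_atTop.eventually_ge_atTop _
  have e4' : ∀ᶠ x : ℝ in Filter.atTop, 1 ≤ Real.log x :=
    Real.tendsto_log_atTop.eventually_ge_atTop _
  have e5 := (Real.isLittleO_pow_log_id_atTop (n := 2)).bound (show (0 : ℝ) < 1 / (2 * c) by positivity)
  filter_upwards [Filter.eventually_ge_atTop (2 * P), Filter.eventually_ge_atTop M₀, e3, e4, e5,
    Filter.eventually_ge_atTop (4 * P / η), Filter.eventually_ge_atTop (1 : ℝ), e4'] with x h1 h2 h3 h4 h5 h6 h7 h8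
  refine ⟨h1, h2, h3, ?_, ?_, h6, h7, h8⟩
  · rw [div_le_iff₀ hc] at h4
    have : Real.log x ≤ Real.log x ^ 2 := by nlinarith
    nlinarith
  · have h8 : Real.log x ^ 2 ≤ 1 / (2 * c) * x := by
      have h9 : Real.log x ^ 2 ≤ ‖Real.log x ^ 2‖ := Real.le_norm_self _
      have h10 : ‖id x‖ = x := by
        rw [id, Real.norm_of_nonneg (by linarith)]
      rw [h10] at h5
      exact h9.trans h5
    have h11 : c * Real.log x ^ 2 ≤ c * (1 / (2 * c) * x) := mul_le_mul_of_nonneg_left h8 hc.le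
    have h12 : c * (1 / (2 * c) * x) = x / 2 := by field_simp
    linarith

/-- The numerical facts for one `N`. -/
private theorem quot {x : ℝ} {P N : ℕ} (hP : 1 ≤ P) (hx : x ^ 2 = N) (h1 : 2 * (P : ℝ) ≤ x) (h7 : 1 ≤ x) :
    x ^ 2 / (2 * P) ≤ ((N / P : ℕ) : ℝ) ∧ x ≤ ((N / P : ℕ) : ℝ) ∧ (((N / P : ℕ) : ℝ) ≤ x ^ 2) := by
  have hP' : (1 : ℝ) ≤ P := by exact_mod_cast hP
  have hP0 : (0 : ℝ) < P := by linarith
  have a1 : N < P * (N / P + 1) := by
    have := Nat.lt_mul_div_succ N (show 0 < P by omega)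
    exact this
  have a2 : x ^ 2 < P * (((N / P : ℕ) : ℝ) + 1) := by
    rw [hx]
    exact_mod_cast a1
  have a3 : x ≤ x ^ 2 / (2 * P) := by
    rw [le_div_iff₀ (by positivity)]
    nlinarith
  have a4 : x ^ 2 / (2 * P) * (2 * P) = x ^ 2 := div_mul_cancel₀ _ (by positivity)
  have a5 : x ^ 2 / (2 * P) ≤ ((N / P : ℕ) : ℝ) := by
    set y : ℝ := x ^ 2 / (2 * P) with hy
    have a6 : (P : ℝ) * (2 * y) < P * (((N / P : ℕ) : ℝ) + 1) := by
      have : (P : ℝ) * (2 * y) = x ^ 2 := by rw [← a4]; ring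
      rw [this]
      exact a2
    have a7 := lt_of_mul_lt_mul_left a6 hP0.le
    linarith
  refine ⟨a5, a3.trans a5, ?_⟩
  rw [hx]
  exact_mod_cast Nat.div_le_self N P

/-- From the bound for the number of prime factors to the bound of `Good`. -/
private theorem om_bd {δ x Om lw : ℝ} (hδ : 0 < δ) (hlx : 0 < Real.log x) (hOm : 0 ≤ Om)
    (hw : δ / 2 * Real.log x ≤ lw) (h : Om * lw ≤ 3 * (2 * Real.log x)) : Om ≤ 12 / δ := by
  have e1 : Om * (δ / 2 * Real.log x) ≤ 6 * Real.log x := by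
    have e2 : Om * (δ / 2 * Real.log x) ≤ Om * lw := mul_le_mul_of_nonneg_left hw hOm
    linarith
  have e3 : Om * (δ / 2) ≤ 6 := by
    have e4 : (Om * (δ / 2)) * Real.log x ≤ 6 * Real.log x := by
      rw [mul_assoc]
      exact e1
    exact le_of_mul_le_mul_right e4 hlx
  rw [le_div_iff₀ hδ]
  linarith

private theorem good {A δ c x : ℝ} {p N m I r : ℕ} (hE : StEXP) (hδ : 0 < δ) (hc : 0 < c)
    (hx : x ^ 2 = N) (h1 : 2 * ((primorial p : ℕ) : ℝ) ≤ x) (h3 : 4 ≤ x ^ (δ / 2))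
    (h4 : 2 * ((primorial p : ℕ) : ℝ) ≤ c / 2 * Real.log x ^ 2) (h5 : c * Real.log x ^ 2 ≤ x / 2) (h7 : 1 ≤ x)
    (h8 : 1 ≤ Real.log x) (hr1 : 1 ≤ r) (hrP : r ≤ primorial p)
    (hr : ∀ q : ℕ, q.Prime → q ≤ p → ¬ (q : ℤ) ∣ ff ((0 : ℕ) : ℤ) r)
    (hI : ((N / primorial p : ℕ) : ℝ) ^ δ < 2 ^ (I + 1))
    (hm : x ≤ ((primorial p * m : ℕ) : ℝ)) (hmN : primorial p * m ≤ N)
    (hX : 0 < XX A p (2 ^ I - 1) (primorial p) 0 r
      ⌈c / (8 * ((primorial p : ℕ) : ℝ)) * Real.log ((N / primorial p : ℕ) : ℝ) ^ 2⌉₊ m) :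
    Good c ⌈12 / δ⌉₊ (primorial p * m) := by
  have hP1 : 1 ≤ primorial p := primorial_pos p
  obtain ⟨q1, q2, q3⟩ := quot hP1 hx h1 h7
  have hP' : (1 : ℝ) ≤ ((primorial p : ℕ) : ℝ) := by exact_mod_cast hP1
  set P : ℕ := primorial p with hPd
  set M : ℕ := N / P with hM
  set J : ℕ := ⌈c / (8 * (P : ℝ)) * Real.log (M : ℝ) ^ 2⌉₊ with hJ
  have hx0 : 0 < x := by linarith
  have hM0 : (0 : ℝ) < M := by linarith
  have hlx : 0 < Real.log x := by linarith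
  have hlM : Real.log x ≤ Real.log M := Real.log_le_log hx0 q2
  have hlM2 : Real.log M ≤ 2 * Real.log x := by
    have := Real.log_le_log hM0 q3
    rwa [Real.log_pow, Nat.cast_ofNat] at this
  have hlMs : Real.log M ^ 2 ≤ 4 * Real.log x ^ 2 := by nlinarith
  have hw : 4 ≤ (M : ℝ) ^ (δ / 2) :=
    h3.trans (Real.rpow_le_rpow hx0.le q2 (by positivity))
  obtain ⟨w1, w2⟩ := pow_bd hδ hw hI
  have hJ1 : (J : ℝ) < c / (8 * (P : ℝ)) * Real.log (M : ℝ) ^ 2 + 1 := by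
    apply Nat.ceil_lt_add_one
    positivity
  have hPJ : ((P * (J + 1) : ℕ) : ℝ) ≤ c * Real.log x ^ 2 := by
    push_cast
    have e1 : (P : ℝ) * (J + 1) ≤ P * (c / (8 * (P : ℝ)) * Real.log (M : ℝ) ^ 2 + 2) :=
      mul_le_mul_of_nonneg_left (by linarith) (by linarith)
    have e2 : (P : ℝ) * (c / (8 * (P : ℝ)) * Real.log (M : ℝ) ^ 2 + 2) = c / 8 * Real.log M ^ 2 + 2 * P := by
      field_simp
    have e3 : c / 8 * Real.log M ^ 2 ≤ c / 8 * (4 * Real.log x ^ 2) :=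
      mul_le_mul_of_nonneg_left hlMs (by positivity)
    linarith
  have hn1 : ((P * (J + 1) : ℕ) : ℝ) < ((P * m : ℕ) : ℝ) := by linarith
  have hn2 : P * (J + 1) < P * m := by exact_mod_cast hn1
  have hmod : P * m % primorial p = 0 := by rw [← hPd, Nat.mul_mod_right]
  have hdiv : P * m / primorial p = m := by rw [← hPd, Nat.mul_div_cancel_left m hP1]
  have hX' : XX A p (2 ^ I - 1) (primorial p) (P * m % primorial p) r J (P * m / primorial p) ≠ 0 := by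
    rw [hmod, hdiv, ← hPd]
    exact hX.ne'
  have hr' : ∀ q : ℕ, q.Prime → q ≤ p → ¬ (q : ℤ) ∣ ff ((P * m % primorial p : ℕ) : ℤ) r := by
    intro q hq hqp
    rw [hmod]
    exact hr q hq hqp
  obtain ⟨y, k1, k2, k3, k4, k5⟩ := hE A p (2 ^ I - 1) J (P * m) r w1 hr1 hrP (by rw [← hPd]; exact hn2) hr' hX'
  rw [← hPd] at k3
  have hln : Real.log ((P * m : ℕ) : ℝ) ≤ 2 * Real.log x := by
    have e1 : (0 : ℝ) < ((P * m : ℕ) : ℝ) := by linarith
    have e2 : ((P * m : ℕ) : ℝ) ≤ x ^ 2 := by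
      rw [hx]
      exact_mod_cast hmN
    have := Real.log_le_log e1 e2
    rwa [Real.log_pow, Nat.cast_ofNat] at this
  have hln2 : Real.log x ≤ Real.log ((P * m : ℕ) : ℝ) := Real.log_le_log hx0 hm
  have hw3 : δ / 2 * Real.log x ≤ Real.log ((2 ^ I - 1 : ℕ) : ℝ) :=
    (mul_le_mul_of_nonneg_left hlM (by positivity)).trans w2
  refine ⟨y, k1, k2, ?_, ?_, ?_⟩
  · have e1 : (y : ℝ) ≤ ((P * (J + 1) : ℕ) : ℝ) := by exact_mod_cast k3
    have e2 : c * Real.log x ^ 2 ≤ c * Real.log ((P * m : ℕ) : ℝ) ^ 2 :=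
      mul_le_mul_of_nonneg_left (pow_le_pow_left₀ hlx.le hln2 2) hc.le
    linarith
  · have e5 := om_bd hδ hlx (Nat.cast_nonneg _) hw3 (k4.trans (by linarith))
    have e6 := e5.trans (Nat.le_ceil (12 / δ))
    exact_mod_cast e6
  · have e5 := om_bd hδ hlx (Nat.cast_nonneg _) hw3 (k5.trans (by linarith))
    have e6 := e5.trans (Nat.le_ceil (12 / δ))
    exact_mod_cast e6

/-- FNQ. -/
theorem hFNQ (h : StCHQ) (hE : StEXP) (hR : StRRP) : StFNQ := by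
  classical
  obtain ⟨A, δ, hA0, hδ, hδ1, p, hp7, hmain⟩ := h
  obtain ⟨r, hr1, hrP, hr⟩ := hR p 0
  refine ⟨⌈12 / δ⌉₊, ?_⟩
  intro c hc
  have hP1 : 1 ≤ primorial p := primorial_pos p
  have hP' : (1 : ℝ) ≤ ((primorial p : ℕ) : ℝ) := by exact_mod_cast hP1
  have hP0 : (0 : ℝ) < ((primorial p : ℕ) : ℝ) := by linarith
  obtain ⟨η, hη, M₀, hcnt⟩ := hmain p (primorial p) le_rfl hP1 (fun l hl hd => le_of_dvd_primorial hl hd)
    (c / (8 * ((primorial p : ℕ) : ℝ))) (by positivity)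
  refine ⟨η / (4 * ((primorial p : ℕ) : ℝ)), by positivity, ?_⟩
  have hlim : Filter.Tendsto (fun N : ℕ => Real.sqrt (N : ℝ)) Filter.atTop Filter.atTop :=
    Real.tendsto_sqrt_atTop.comp tendsto_natCast_atTop_atTop
  have hev := hlim.eventually (large (δ := δ) (c := c) (η := η) (P := ((primorial p : ℕ) : ℝ)) (M₀ : ℝ) hδ hc)
  obtain ⟨N₀, hN₀⟩ := Filter.eventually_atTop.1 hev
  refine ⟨N₀, ?_⟩
  intro N hN
  obtain ⟨h1, h2, h3, h4, h5, h6, h7, h8⟩ := hN₀ N hN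
  set x : ℝ := Real.sqrt (N : ℝ) with hxd
  have hx : x ^ 2 = N := Real.sq_sqrt (Nat.cast_nonneg _)
  obtain ⟨q1, q2, q3⟩ := quot hP1 hx h1 h7
  set M : ℕ := N / primorial p with hM
  set J : ℕ := ⌈c / (8 * ((primorial p : ℕ) : ℝ)) * Real.log (M : ℝ) ^ 2⌉₊ with hJ
  have hMM : M₀ ≤ M := by
    have : (M₀ : ℝ) ≤ M := h2.trans q2
    exact_mod_cast this
  have hMd : (1 : ℝ) ≤ (M : ℝ) ^ δ := Real.one_le_rpow (h7.trans q2) hδ.le
  obtain ⟨I, hI1, hI2⟩ := exists_nat_pow_near hMd (show (1 : ℝ) < 2 by norm_num)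
  have hJ1 : (J : ℝ) ≤ c / (8 * ((primorial p : ℕ) : ℝ)) * Real.log (M : ℝ) ^ 2 + 1 :=
    (Nat.ceil_lt_add_one (by positivity)).le
  have hA := hcnt M I J 0 r hMM hI1 hI2 (Nat.le_ceil _) hJ1 hr1 hrP
  set S : Finset ℕ := (Icc 1 M).filter (fun m : ℕ => 0 < XX A p (2 ^ I - 1) (primorial p) 0 r J m) with hSd
  set B : Finset ℕ := S.filter (fun m : ℕ => x ≤ ((primorial p * m : ℕ) : ℝ)) with hB
  have hAB : (S.card : ℝ) ≤ B.card + x := by
    have e1 : S.card = B.card + (S.filter (fun m : ℕ => ¬ x ≤ ((primorial p * m : ℕ) : ℝ))).card :=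
      (Finset.card_filter_add_card_filter_not (s := S) (fun m : ℕ => x ≤ ((primorial p * m : ℕ) : ℝ))).symm
    have e2 : S.filter (fun m : ℕ => ¬ x ≤ ((primorial p * m : ℕ) : ℝ)) ⊆ Icc 1 ⌊x⌋₊ := by
      intro m hm
      rw [Finset.mem_filter] at hm
      obtain ⟨hmA, hmx⟩ := hm
      have hmI := (Finset.mem_filter.1 hmA).1
      rw [Finset.mem_Icc] at hmI ⊢
      refine ⟨hmI.1, ?_⟩
      apply Nat.le_floor
      have e3 : (m : ℝ) ≤ ((primorial p * m : ℕ) : ℝ) := by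
        exact_mod_cast Nat.le_mul_of_pos_left m hP1
      have e4 := not_le.1 hmx
      linarith
    have e5 := Finset.card_le_card e2
    rw [Nat.card_Icc, Nat.add_sub_cancel] at e5
    have e6 : ((S.filter (fun m : ℕ => ¬ x ≤ ((primorial p * m : ℕ) : ℝ))).card : ℝ) ≤ x :=
      (Nat.cast_le.2 e5).trans (Nat.floor_le (by linarith))
    rw [e1]
    push_cast
    push_cast at e6
    linarith
  have hBG : (B.card : ℝ) ≤ (((Icc 1 N).filter (fun n => Good c ⌈12 / δ⌉₊ n)).card : ℝ) := by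
    have e1 : B.card ≤ ((Icc 1 N).filter (fun n => Good c ⌈12 / δ⌉₊ n)).card := by
      apply Finset.card_le_card_of_injOn (fun m => primorial p * m)
      · intro m hm
        have hm' := Finset.mem_filter.1 (Finset.mem_coe.1 hm)
        have hmA := Finset.mem_filter.1 hm'.1
        have hmI := Finset.mem_Icc.1 hmA.1
        have hle : primorial p * m ≤ N :=
          (Nat.mul_le_mul_left _ hmI.2).trans (Nat.mul_div_le N (primorial p))
        refine Finset.mem_coe.2 (Finset.mem_filter.2 ⟨Finset.mem_Icc.2 ⟨Nat.mul_pos hP1 hmI.1, hle⟩, ?_⟩)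
        exact good hE hδ hc hx h1 h3 h4 h5 h7 h8 hr1 hrP hr hI2 hm'.2 hle hmA.2
      · intro a _ b _ hab
        exact Nat.eq_of_mul_eq_mul_left hP1 hab
    exact_mod_cast e1
  have hfin : η / (4 * ((primorial p : ℕ) : ℝ)) * N ≤ η * M - x := by
    rw [← hx]
    have e1 : η * (x ^ 2 / (2 * ((primorial p : ℕ) : ℝ))) ≤ η * M := mul_le_mul_of_nonneg_left q1 hη.le
    have e2 : η * (x ^ 2 / (2 * ((primorial p : ℕ) : ℝ))) =
        η / (4 * ((primorial p : ℕ) : ℝ)) * x ^ 2 + η / (4 * ((primorial p : ℕ) : ℝ)) * x ^ 2 := by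
      field_simp
      ring
    have e3 : x ≤ η / (4 * ((primorial p : ℕ) : ℝ)) * x ^ 2 := by
      have e4 : 1 ≤ η / (4 * ((primorial p : ℕ) : ℝ)) * x := by
        rw [div_le_iff₀ hη] at h6
        rw [div_mul_eq_mul_div, le_div_iff₀ (by positivity)]
        linarith
      nlinarith
    linarith
  linarith

end Pool.Agent.Helper55.LP
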